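import Pool.Agent.W978.QO.Stm

set_option autoImplicit false

namespace Pool.Agent.W673.QO

open Finset Pool.Agent.W978.QN Pool.Agent.W978.QO

theorem ct_lin (v : Fin 3 → ℤ) : ∃ u : Fin 3 → ℤ, ∑ i, u i * v i = ct v := by
  have h1 := Int.gcd_eq_gcd_ab (v 0) (v 1)
  have h2 := Int.gcd_eq_gcd_ab ((Int.gcd (v 0) (v 1) : ℕ) : ℤ) (v 2)
  have h3 : (Int.gcd ((Int.gcd (v 0) (v 1) : ℕ) : ℤ) (v 2) : ℕ) = ct v := by
    unfold ct
    rw [Int.gcd_def, Int.natAbs_natCast]
  rw [h3] at h2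
  refine ⟨![Int.gcdA (v 0) (v 1) * Int.gcdA ((Int.gcd (v 0) (v 1) : ℕ) : ℤ) (v 2),
    Int.gcdB (v 0) (v 1) * Int.gcdA ((Int.gcd (v 0) (v 1) : ℕ) : ℤ) (v 2),
    Int.gcdB ((Int.gcd (v 0) (v 1) : ℕ) : ℤ) (v 2)], ?_⟩
  rw [Fin.sum_univ_three]
  simp only [Matrix.cons_val_zero, Matrix.cons_val_one, Matrix.cons_val]
  rw [h2]
  linear_combination (- Int.gcdA ((Int.gcd (v 0) (v 1) : ℕ) : ℤ) (v 2)) * h1

theorem dec (v : Fin 3 → ℤ) (hv : v ≠ 0) : ∃ v' : Fin 3 → ℤ, (∀ i, v i = ct v * v' i) ∧ Prim v' := by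
  have h1 := (ct_le_nm hv).1
  choose v' hv' using ct_dvd v
  refine ⟨v', hv', ?_⟩
  obtain ⟨u, hu⟩ := ct_lin v
  refine ⟨u, ?_⟩
  have h2 : (ct v : ℤ) * ∑ i, u i * v' i = ct v * 1 := by
    rw [mul_one, ← hu, hu, mul_sum]
    conv_rhs => rw [← hu]
    apply sum_congr rfl
    intro i _
    rw [hv' i]
    ring
  have h3 : (ct v : ℤ) ≠ 0 := by
    have : ct v ≠ 0 := by omega
    exact_mod_cast this
  exact mul_left_cancel₀ h3 h2

theorem ct_prim {v : Fin 3 → ℤ} (h : Prim v) : ct v = 1 := by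
  have h1 : (ct v : ℤ) ∣ 1 := prim_dvd h (fun i => by rw [one_mul]; exact ct_dvd v i)
  have h2 : ct v ∣ 1 := by exact_mod_cast h1
  exact Nat.dvd_one.1 h2

/-- all lattice points -/
noncomputable def La (w : Fin 3 → ℤ) (R : ℕ) : Finset (Fin 3 → ℤ) :=
  (bx R).filter fun r => ∑ k, w k * r k = 0

open Classical in
/-- primitive lattice points -/
noncomputable def Pa (w : Fin 3 → ℤ) (R : ℕ) : Finset (Fin 3 → ℤ) :=
  (bx R).filter fun r => Prim r ∧ ∑ k, w k * r k = 0

theorem pig (w : Fin 3 → ℤ) (R : ℕ) :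
    (R + 1) ^ 3 ≤ (La w R).card * (6 * (nm w).toNat * R + 1) := by
  classical
  set P : Finset (Fin 3 → ℤ) := Fintype.piFinset fun _ => Icc (0 : ℤ) R with hP
  have hPc : P.card = (R + 1) ^ 3 := by
    rw [hP, Fintype.card_piFinset]
    simp
  have hn0 : 0 ≤ nm w := (abs_nonneg _).trans (le_nm w 0)
  have hWn : ((nm w).toNat : ℤ) = nm w := Int.toNat_of_nonneg hn0
  set T : Finset ℤ := Icc (-(3 * nm w * R)) (3 * nm w * R) with hT
  have hTc : T.card = 6 * (nm w).toNat * R + 1 := by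
    rw [hT, Int.card_Icc]
    have e : 3 * nm w * R + 1 - -(3 * nm w * R) = ((6 * (nm w).toNat * R + 1 : ℕ) : ℤ) := by
      push_cast
      rw [hWn]
      ring
    rw [e, Int.toNat_natCast]
  have hmem : ∀ r ∈ P, ∀ i, 0 ≤ r i ∧ r i ≤ R := by
    intro r hr i
    have := (Fintype.mem_piFinset.1 hr) i
    exact mem_Icc.1 this
  have hmaps : ∀ r ∈ P, ∑ k, w k * r k ∈ T := by
    intro r hr
    rw [hT, mem_Icc, ← abs_le]
    have h1 : |∑ k, w k * r k| ≤ 3 * (nm w * R) := by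
      apply abs_sum3 (fun k => w k * r k)
      intro i
      rw [abs_mul]
      have h2 := hmem r hr i
      rw [abs_of_nonneg h2.1]
      exact mul_le_mul (le_nm w i) h2.2 h2.1 hn0
    linarith
  rw [← hPc, ← hTc]
  apply card_le_mul_card_image_of_maps_to hmaps
  intro b _
  rcases (P.filter fun r => ∑ k, w k * r k = b).eq_empty_or_nonempty with h | ⟨r0, hr0⟩
  · rw [h]
    simp
  · have h0 := mem_filter.1 hr0
    refine card_le_card_of_injOn (fun r => r - r0) ?_ ?_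
    · intro r hr
      have h1 := mem_filter.1 (mem_coe.1 hr)
      apply mem_coe.2
      refine mem_filter.2 ⟨mem_bx.2 (nm_le ?_), ?_⟩
      · intro i
        have h2 := hmem r h1.1 i
        have h3 := hmem r0 h0.1 i
        change |r i - r0 i| ≤ (R : ℤ)
        rw [abs_le]
        constructor <;> linarith
      · have h4 : ∑ k, w k * (r - r0) k = ∑ k, w k * r k - ∑ k, w k * r0 k := by
          rw [← sum_sub_distrib]
          apply sum_congr rfl
          intro k _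
          rw [Pi.sub_apply]
          ring
        change ∑ k, w k * (r - r0) k = 0
        rw [h4, h1.2, h0.2, sub_self]
    · intro r _ r' _ h
      exact sub_left_injective h

theorem La_le (w : Fin 3 → ℤ) (R : ℕ) :
    (La w R).card ≤ 1 + ∑ d ∈ Icc 1 R, (Pa w (R / d)).card := by
  classical
  have hsub : La w R ⊆ {0} ∪ (Icc 1 R).biUnion
      (fun d => (Pa w (R / d)).image (fun r => (d : ℤ) • r)) := by
    intro r hr
    have h1 := mem_filter.1 hr
    rw [mem_union, mem_singleton]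
    by_cases h0 : r = 0
    · exact Or.inl h0
    · right
      obtain ⟨v, hv, hp⟩ := dec r h0
      have h2 := ct_le_nm h0
      have h3 := mem_bx.1 h1.1
      have h5 : (0 : ℤ) < ct r := by exact_mod_cast h2.1
      rw [mem_biUnion]
      refine ⟨ct r, mem_Icc.2 ⟨h2.1, by exact_mod_cast h2.2.trans h3⟩, ?_⟩
      refine mem_image.2 ⟨v, ?_, ?_⟩
      · refine mem_filter.2 ⟨mem_bx.2 (nm_le ?_), hp, ?_⟩
        · intro i
          have h4 : |v i| * ct r ≤ R := by
            have := (le_nm r i).trans h3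
            rw [hv i, abs_mul, abs_of_pos h5] at this
            linarith
          have e : ((R / ct r : ℕ) : ℤ) = (R : ℤ) / (ct r : ℤ) := by
            first
              | exact Int.natCast_ediv R (ct r)
              | exact Int.natCast_div R (ct r)
              | norm_cast
          rw [e]
          exact (Int.le_ediv_iff_mul_le h5).2 h4
        · have h6 : (ct r : ℤ) * ∑ k, w k * v k = 0 := by
            rw [mul_sum, ← h1.2]
            apply sum_congr rfl
            intro k _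
            rw [hv k]
            ring
          rcases mul_eq_zero.1 h6 with h7 | h7
          · exact absurd h7 h5.ne'
          · exact h7
      · funext i
        rw [Pi.smul_apply, smul_eq_mul, hv i]
  refine (card_le_card hsub).trans ((card_union_le _ _).trans ?_)
  rw [card_singleton]
  apply Nat.add_le_add_left
  refine card_biUnion_le.trans (sum_le_sum fun d _ => card_image_le)

theorem Pa_mono (w : Fin 3 → ℤ) {R R' : ℕ} (h : R ≤ R') : (Pa w R).card ≤ (Pa w R').card := by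
  classical
  apply card_le_card
  intro r hr
  have h1 := mem_filter.1 hr
  refine mem_filter.2 ⟨mem_bx.2 ((mem_bx.1 h1.1).trans (by exact_mod_cast h)), h1.2⟩

theorem rep_or {v : Fin 3 → ℤ} (h : Prim v) : Rep v ∨ Rep (-v) := by
  have hn : Prim (-v) := by
    obtain ⟨u, hu⟩ := h
    refine ⟨-u, ?_⟩
    rw [← hu]
    apply sum_congr rfl
    intro i _
    simp
  rcases lt_trichotomy (v 0) 0 with h0 | h0 | h0
  · right
    exact ⟨hn, Or.inl (by rw [Pi.neg_apply]; omega)⟩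
  · rcases lt_trichotomy (v 1) 0 with h1 | h1 | h1
    · right
      refine ⟨hn, Or.inr (Or.inl ⟨?_, ?_⟩)⟩
      · rw [Pi.neg_apply]; omega
      · rw [Pi.neg_apply]; omega
    · obtain ⟨u, hu⟩ := h
      rw [Fin.sum_univ_three, h0, h1, mul_zero, mul_zero, zero_add, zero_add] at hu
      rcases Int.isUnit_iff.1 (IsUnit.of_mul_eq_one_right _ hu) with h2 | h2
      · left
        exact ⟨⟨u, by rw [Fin.sum_univ_three, h0, h1, mul_zero, mul_zero, zero_add, zero_add, hu]⟩,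
          Or.inr (Or.inr ⟨h0, h1, h2⟩)⟩
      · right
        refine ⟨hn, Or.inr (Or.inr ⟨?_, ?_, ?_⟩)⟩
        · rw [Pi.neg_apply]; omega
        · rw [Pi.neg_apply]; omega
        · rw [Pi.neg_apply]; omega
    · left
      exact ⟨h, Or.inr (Or.inl ⟨h0, h1⟩)⟩
  · left
    exact ⟨h, Or.inl h0⟩

open Classical in
theorem rep_half (w : Fin 3 → ℤ) (R : ℕ) : (Pa w R).card ≤
    2 * ((bx R).filter fun r => Rep r ∧ ∑ k, w k * r k = 0).card := by
  set A := (bx R).filter fun r => Rep r ∧ ∑ k, w k * r k = 0 with hA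
  have hsub : Pa w R ⊆ A ∪ A.image (fun r => -r) := by
    intro r hr
    have h1 := mem_filter.1 hr
    rw [mem_union]
    rcases rep_or h1.2.1 with h | h
    · left
      exact mem_filter.2 ⟨h1.1, h, h1.2.2⟩
    · right
      refine mem_image.2 ⟨-r, mem_filter.2 ⟨?_, h, ?_⟩, neg_neg r⟩
      · refine mem_bx.2 (nm_le ?_)
        intro i
        rw [Pi.neg_apply, abs_neg]
        exact (le_nm r i).trans (mem_bx.1 h1.1)
      · have : ∑ k, w k * (-r) k = - ∑ k, w k * r k := by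
          rw [← sum_neg_distrib]
          apply sum_congr rfl
          intro k _
          rw [Pi.neg_apply]
          ring
        rw [this, h1.2.2, neg_zero]
  have h2 := (card_le_card hsub).trans (card_union_le _ _)
  have h3 : (A.image (fun r => -r)).card ≤ A.card := card_image_le
  omega

theorem prim_case (hR : S_R) (w : Fin 3 → ℤ) (hp : Prim w) (R : ℕ)
    (hRw : (140 : ℤ) * nm w ^ 3 ≤ R) :
    (R : ℝ) ^ 2 / (28 * nm w) ≤ 112 * ((Pa w R).card : ℝ) := by
  have hw := prim_ne_zero hp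
  have hct := ct_prim hp
  have hW1 := nm_pos hp
  have hWR : (1 : ℝ) ≤ (nm w : ℝ) := by exact_mod_cast hW1
  have hW0 : (0 : ℝ) < (nm w : ℝ) := by linarith
  have hRr : (140 : ℝ) * (nm w : ℝ) ^ 3 ≤ R := by exact_mod_cast hRw
  have hcube : (nm w : ℝ) ≤ (nm w : ℝ) ^ 3 := by
    nlinarith [mul_nonneg hW0.le (mul_nonneg hW0.le hW0.le), mul_nonneg (sub_nonneg.2 hWR) hW0.le]
  have hR140 : (140 : ℝ) * (nm w : ℝ) ≤ R := by linarith
  have hR1 : (140 : ℝ) ≤ R := by linarith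
  have hRn : 140 ≤ R := by exact_mod_cast hR1
  have hpig := pig w R
  have hLa := La_le w R
  have hWn : (((nm w).toNat : ℕ) : ℝ) = (nm w : ℝ) := by
    have : (((nm w).toNat : ℕ) : ℤ) = nm w := Int.toNat_of_nonneg (by omega)
    exact_mod_cast congrArg (fun z : ℤ => (z : ℝ)) this
  have hpigR : ((R : ℝ) + 1) ^ 3 ≤ ((La w R).card : ℝ) * (6 * (nm w : ℝ) * R + 1) := by
    rw [← hWn]
    exact_mod_cast hpig
  have h1 : (R : ℝ) ^ 2 ≤ ((La w R).card : ℝ) * (7 * (nm w : ℝ)) := by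
    have hL0 : (0 : ℝ) ≤ ((La w R).card : ℝ) := Nat.cast_nonneg _
    have h2 : (6 * (nm w : ℝ) * R + 1) ≤ 7 * (nm w : ℝ) * R := by nlinarith
    have h3 : (R : ℝ) ^ 3 ≤ ((La w R).card : ℝ) * (7 * (nm w : ℝ) * R) := by
      calc (R : ℝ) ^ 3 ≤ ((R : ℝ) + 1) ^ 3 := by gcongr; linarith
        _ ≤ _ := hpigR
        _ ≤ _ := mul_le_mul_of_nonneg_left h2 hL0
    have hR0 : (0 : ℝ) < R := by linarith
    have h4 : (R : ℝ) ^ 2 * R ≤ ((La w R).card : ℝ) * (7 * (nm w : ℝ)) * R := by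
      calc (R : ℝ) ^ 2 * R = (R : ℝ) ^ 3 := by ring
        _ ≤ _ := h3
        _ = _ := by ring
    exact le_of_mul_le_mul_right h4 hR0
  have h5 : ((La w R).card : ℝ) ≤ 1 + ∑ d ∈ Icc 1 R, ((Pa w (R / d)).card : ℝ) := by
    exact_mod_cast hLa
  have hsplit : Icc 1 R = Icc 1 112 ∪ Ioc 112 R := by
    ext d
    simp only [mem_union, mem_Icc, mem_Ioc]
    omega
  have hdisj : Disjoint (Icc 1 112) (Ioc 112 R) := by
    rw [disjoint_left]
    intro d h1 h2
    rw [mem_Icc] at h1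
    rw [mem_Ioc] at h2
    omega
  have h6 : ∑ d ∈ Icc 1 112, ((Pa w (R / d)).card : ℝ) ≤ 112 * ((Pa w R).card : ℝ) := by
    calc ∑ d ∈ Icc 1 112, ((Pa w (R / d)).card : ℝ) ≤ ∑ _d ∈ Icc 1 112, ((Pa w R).card : ℝ) := by
          apply sum_le_sum
          intro d _
          exact_mod_cast Pa_mono w (Nat.div_le_self R d)
      _ = _ := by
          rw [sum_const, Nat.card_Icc, nsmul_eq_mul]
          norm_num
  have h7 : ∑ d ∈ Ioc 112 R, ((Pa w (R / d)).card : ℝ) ≤
      4 * R + (R : ℝ) ^ 2 / (14 * nm w) := by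
    have h8 : ∀ d ∈ Ioc 112 R, ((Pa w (R / d)).card : ℝ) ≤
        4 + 8 * (R : ℝ) ^ 2 / nm w * ((d : ℝ) ^ 2)⁻¹ := by
      intro d hd
      rw [mem_Ioc] at hd
      have h9 := hR w hw (R / d) ((Nat.one_le_div_iff (by omega)).2 hd.2)
      rw [hct] at h9
      have hd0 : (0 : ℝ) < d := by
        have : 0 < d := by omega
        exact_mod_cast this
      have h10 : ((R / d : ℕ) : ℝ) ≤ (R : ℝ) / d := Nat.cast_div_le
      have h11 : ((R / d : ℕ) : ℝ) ^ 2 ≤ ((R : ℝ) / d) ^ 2 := by gcongr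
      have h12 : ((Pa w (R / d)).card : ℝ) ≤ 4 + 8 * ((R / d : ℕ) : ℝ) ^ 2 * (1 : ℕ) / nm w := by
        convert h9 using 4
        first
          | rfl
          | (unfold Pa; congr)
      refine h12.trans ?_
      have h13 : 8 * ((R / d : ℕ) : ℝ) ^ 2 * ((1 : ℕ) : ℝ) / nm w ≤
          8 * ((R : ℝ) / d) ^ 2 / nm w := by
        rw [Nat.cast_one, mul_one]
        gcongr
      have h14 : 8 * ((R : ℝ) / d) ^ 2 / nm w = 8 * (R : ℝ) ^ 2 / nm w * ((d : ℝ) ^ 2)⁻¹ := by
        field_simp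
      linarith
    refine (sum_le_sum h8).trans ?_
    rw [sum_add_distrib, ← mul_sum, sum_const, Nat.card_Ioc, nsmul_eq_mul]
    have h15 := sum_Ioc_inv_sq_le_sub (α := ℝ) (k := 112) (n := R) (by norm_num) (by omega)
    have h16 : ∑ i ∈ Ioc 112 R, ((i : ℝ) ^ 2)⁻¹ ≤ 1 / 112 := by
      have : (0 : ℝ) ≤ (R : ℝ)⁻¹ := by positivity
      have h17 : (((112 : ℕ) : ℝ))⁻¹ = 1 / 112 := by norm_num
      rw [h17] at h15
      linarith
    have h18 : ((R - 112 : ℕ) : ℝ) ≤ R := by exact_mod_cast Nat.sub_le _ _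
    have h19 : 8 * (R : ℝ) ^ 2 / nm w * ∑ i ∈ Ioc 112 R, ((i : ℝ) ^ 2)⁻¹ ≤
        8 * (R : ℝ) ^ 2 / nm w * (1 / 112) := by
      apply mul_le_mul_of_nonneg_left h16
      positivity
    have h20 : 8 * (R : ℝ) ^ 2 / nm w * (1 / 112) = (R : ℝ) ^ 2 / (14 * nm w) := by
      field_simp
      ring
    rw [h20] at h19
    linarith
  rw [hsplit, sum_union hdisj] at h5
  have h21 : (R : ℝ) ^ 2 / (7 * nm w) ≤ ((La w R).card : ℝ) := by
    rw [div_le_iff₀ (by positivity)]
    exact h1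
  have h22 : (R : ℝ) ^ 2 / (7 * nm w) = 4 * ((R : ℝ) ^ 2 / (28 * nm w)) := by
    field_simp
    ring
  have h23 : (R : ℝ) ^ 2 / (14 * nm w) = 2 * ((R : ℝ) ^ 2 / (28 * nm w)) := by
    field_simp
    ring
  have h24 : 5 * (R : ℝ) ≤ (R : ℝ) ^ 2 / (28 * nm w) := by
    rw [le_div_iff₀ (by positivity)]
    nlinarith
  rw [h22] at h21
  rw [h23] at h7
  linarith

open Classical in
theorem l1 (hR : S_R) : S_L1 := by
  refine ⟨1 / 6272, 140, by norm_num, ?_⟩
  intro w hw R hRw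
  obtain ⟨v, hv, hp⟩ := dec w hw
  have hc := (ct_le_nm hw).1
  have hc' : (1 : ℤ) ≤ ct w := by exact_mod_cast hc
  have hle : nm v ≤ nm w := by
    apply nm_le
    intro i
    have h1 := le_nm w i
    rw [hv i, abs_mul, abs_of_pos (by omega : (0 : ℤ) < ct w)] at h1
    nlinarith [abs_nonneg (v i)]
  have hv1 := nm_pos hp
  have h3 : nm v ^ 3 ≤ nm w ^ 3 := by gcongr
  have h4 := prim_case hR v hp R (by push_cast at hRw; linarith)
  have h5 := rep_half v R
  have h6 : (filter (fun r => Rep r ∧ ∑ k, v k * r k = 0) (bx R)) =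
      (filter (fun r => Rep r ∧ ∑ k, w k * r k = 0) (bx R)) := by
    apply filter_congr
    intro r _
    have h7 : ∑ k, w k * r k = ct w * ∑ k, v k * r k := by
      rw [mul_sum]
      apply sum_congr rfl
      intro k _
      rw [hv k]
      ring
    rw [h7]
    constructor
    · rintro ⟨h8, h9⟩
      exact ⟨h8, by rw [h9, mul_zero]⟩
    · rintro ⟨h8, h9⟩
      refine ⟨h8, ?_⟩
      rcases mul_eq_zero.1 h9 with h10 | h10
      · omega
      · exact h10
  rw [h6] at h5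
  have h5' : ((Pa v R).card : ℝ) ≤
      2 * ((filter (fun r => Rep r ∧ ∑ k, w k * r k = 0) (bx R)).card : ℝ) := by
    exact_mod_cast h5
  have hvr : (1 : ℝ) ≤ (nm v : ℝ) := by exact_mod_cast hv1
  have hler : (nm v : ℝ) ≤ (nm w : ℝ) := by exact_mod_cast hle
  have h8 : (R : ℝ) ^ 2 / nm w ≤ (R : ℝ) ^ 2 / nm v := by gcongr
  have h9 : (R : ℝ) ^ 2 / (28 * nm v) = (R : ℝ) ^ 2 / nm v / 28 := by
    field_simp
  have h10 : 1 / 6272 * (R : ℝ) ^ 2 / nm w = (R : ℝ) ^ 2 / nm w / 6272 := by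
    ring
  rw [h10]
  rw [h9] at h4
  linarith

end Pool.Agent.W673.QO
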